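import Pool.Agent.Helper74.OKA.St.A02

/-!
# OKA-A7: division by `lam z - w` (MP_7bedea_an)
-/

set_option autoImplicit false

open Set Metric Topology MeasureTheory

open Pool.Agent.Helper74.OKA

namespace Pool.Agent.Helper58.OKA

namespace A7

variable {G G' F : Type} [NormedAddCommGroup G] [NormedSpace ℂ G]
  [NormedAddCommGroup F] [NormedSpace ℂ F]

open Classical in
/-- the quotient -/
noncomputable def quot (lam : G →L[ℂ] ℂ) (d : (G × ℂ) × G' → F) (y : (G × ℂ) × G') : F :=
  if lam y.1.1 = y.1.2 then -deriv (fun ω => d ((y.1.1, ω), y.2)) y.1.2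
  else (lam y.1.1 - y.1.2)⁻¹ • d y

theorem quot_eq_dslope (lam : G →L[ℂ] ℂ) (d : (G × ℂ) × G' → F) (z : G) (w : ℂ) (p : G')
    (h : d ((z, lam z), p) = 0) :
    quot lam d ((z, w), p) = -dslope (fun ω => d ((z, ω), p)) (lam z) w := by
  unfold quot
  by_cases hw : lam z = w
  · subst hw
    simp
  · rw [if_neg (by simpa using hw), dslope_of_ne _ (fun h' => hw h'.symm), slope_def_module]
    simp only [h, sub_zero]
    rw [← neg_smul, ← inv_neg, neg_sub]

variable [NormedAddCommGroup G'] [NormedSpace ℂ G']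

theorem slice_differentiableAt (D : Set (G × ℂ)) (hD : IsOpen D) (P : Set G') (hP : IsOpen P)
    (d : (G × ℂ) × G' → F) (hd : DifferentiableOn ℂ d (D ×ˢ P)) (z : G) (w : ℂ) (p : G')
    (hx : (z, w) ∈ D) (hp : p ∈ P) : DifferentiableAt ℂ (fun ω => d ((z, ω), p)) w := by
  have h1 : DifferentiableAt ℂ d ((z, w), p) :=
    hd.differentiableAt ((hD.prod hP).mem_nhds ⟨hx, hp⟩)
  have h2 : DifferentiableAt ℂ (fun ω : ℂ => (((z, ω), p) : (G × ℂ) × G')) w := by
    fun_prop
  exact DifferentiableAt.comp w (g := d) (f := fun ω : ℂ => (((z, ω), p) : (G × ℂ) × G')) h1 h2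

variable [FiniteDimensional ℂ F]

/-- Cauchy formula for the quotient -/
theorem quot_eq_integral (lam : G →L[ℂ] ℂ) (D : Set (G × ℂ)) (hD : IsOpen D) (P : Set G')
    (hP : IsOpen P) (d : (G × ℂ) × G' → F) (hd : DifferentiableOn ℂ d (D ×ˢ P)) (w₀ : ℂ) (r : ℝ)
    (hr : 0 < r) (z : G) (w : ℂ) (p : G') (hp : p ∈ P) (hw : w ∈ ball w₀ r)
    (hz : lam z ∈ ball w₀ r) (hD' : ∀ ω ∈ closedBall w₀ r, (z, ω) ∈ D)
    (h : d ((z, lam z), p) = 0) :
    quot lam d ((z, w), p) = -((2 * Real.pi * Complex.I : ℂ)⁻¹ • ∮ ω in C(w₀, r),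
      ((ω - w)⁻¹ * (ω - lam z)⁻¹) • d ((z, ω), p)) := by
  rw [quot_eq_dslope lam d z w p h]
  congr 1
  set g : ℂ → F := fun ω => d ((z, ω), p) with hg
  have hgd : ∀ ω ∈ closedBall w₀ r, DifferentiableAt ℂ g ω := fun ω hω =>
    slice_differentiableAt D hD P hP d hd z ω p (hD' ω hω) hp
  have hcont : ContinuousOn (dslope g (lam z)) (closedBall w₀ r) := by
    rw [continuousOn_dslope (closedBall_mem_nhds_of_mem hz)]
    exact ⟨fun ω hω => (hgd ω hω).continuousAt.continuousWithinAt,
      hgd _ (ball_subset_closedBall hz)⟩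
  have hdiff : ∀ ω ∈ ball w₀ r \ ({lam z} : Set ℂ), DifferentiableAt ℂ (dslope g (lam z)) ω := by
    rintro ω ⟨hω, hω'⟩
    exact (differentiableAt_dslope_of_ne hω').2 (hgd ω (ball_subset_closedBall hω))
  have key := Complex.two_pi_I_inv_smul_circleIntegral_sub_inv_smul_of_differentiable_on_off_countable
    (countable_singleton (lam z)) hw hcont hdiff
  rw [← key]
  congr 1
  apply circleIntegral.integral_congr hr.le
  intro ω hω
  have hne : ω ≠ lam z := by
    intro h'
    rw [← h', mem_ball, mem_sphere.1 hω] at hz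
    exact lt_irrefl _ hz
  have hne' : ω ≠ w := by
    intro h'
    rw [← h', mem_ball, mem_sphere.1 hω] at hw
    exact lt_irrefl _ hw
  simp only [dslope_of_ne _ hne, slope_def_module, hg, h, sub_zero, smul_smul]

variable [FiniteDimensional ℂ G] [FiniteDimensional ℂ G']

theorem quot_differentiableAt (lam : G →L[ℂ] ℂ) (D : Set (G × ℂ)) (hD : IsOpen D) (P : Set G')
    (hP : IsOpen P) (d : (G × ℂ) × G' → F) (M : ℝ) (hd : HB D P M d)
    (h0 : ∀ z, (z, lam z) ∈ D → ∀ p ∈ P, d ((z, lam z), p) = 0) (x₀ : G × ℂ) (p₀ : G')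
    (hx₀ : x₀ ∈ D) (hp₀ : p₀ ∈ P) : DifferentiableAt ℂ (quot lam d) (x₀, p₀) := by
  obtain ⟨z₀, w₀⟩ := x₀
  by_cases hw : lam z₀ = w₀
  · -- on the graph
    subst hw
    obtain ⟨r, hr, hrD⟩ := Metric.isOpen_iff.1 hD _ hx₀
    -- radius r/2 for the circle
    set ρ : ℝ := r / 2 with hρ
    have hρ0 : 0 < ρ := by positivity
    have hD1 : ∀ z ∈ ball z₀ ρ, ∀ ω ∈ closedBall (lam z₀) ρ, (z, ω) ∈ D := by
      intro z hz ω hω
      apply hrD
      rw [mem_ball, Prod.dist_eq, max_lt_iff]
      rw [mem_ball] at hz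
      rw [mem_closedBall] at hω
      constructor
      · simp only; linarith
      · simp only; linarith
    set Ω : Set ((G × ℂ) × G') :=
      {y | y.1.1 ∈ ball z₀ ρ ∧ lam y.1.1 ∈ ball (lam z₀) (ρ / 2) ∧ y.1.2 ∈ ball (lam z₀) (ρ / 2) ∧
        y.2 ∈ P} with hΩ
    have hΩo : IsOpen Ω := by
      refine IsOpen.inter (isOpen_ball.preimage (by fun_prop)) ?_
      refine IsOpen.inter (isOpen_ball.preimage (f := fun y : (G × ℂ) × G' => lam y.1.1)
        (by fun_prop)) ?_
      exact IsOpen.inter (isOpen_ball.preimage (by fun_prop)) (hP.preimage (by fun_prop))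
    have hmem : (((z₀, lam z₀), p₀) : (G × ℂ) × G') ∈ Ω := by
      refine ⟨mem_ball_self hρ0, mem_ball_self (by positivity), mem_ball_self (by positivity), hp₀⟩
    have hsub : ball (lam z₀) (ρ / 2) ⊆ ball (lam z₀) ρ := ball_subset_ball (by linarith)
    -- the integrand
    set f : ℝ → (G × ℂ) × G' → F := fun θ y =>
      (2 * Real.pi * Complex.I : ℂ)⁻¹ • deriv (circleMap (lam z₀) ρ) θ •
        (((circleMap (lam z₀) ρ θ - y.1.2)⁻¹ * (circleMap (lam z₀) ρ θ - lam y.1.1)⁻¹) •
          d ((y.1.1, circleMap (lam z₀) ρ θ), y.2)) with hf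
    have heq : ∀ y ∈ Ω, quot lam d y =
        -∫ θ, f θ y ∂(volume.restrict (Ioc 0 (2 * Real.pi))) := by
      rintro ⟨⟨z, w⟩, p⟩ ⟨hz, hlz, hw', hp⟩
      rw [quot_eq_integral lam D hD P hP d hd.1 (lam z₀) ρ hρ0 z w p hp (hsub hw') (hsub hlz)
        (hD1 z hz) (h0 z (hD1 z hz _ (ball_subset_closedBall (hsub hlz))) p hp)]
      rw [circleIntegral, intervalIntegral.integral_of_le (by positivity), ← integral_smul]
    have hcircle : ∀ θ : ℝ, circleMap (lam z₀) ρ θ ∈ closedBall (lam z₀) ρ :=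
      fun θ => circleMap_mem_closedBall _ hρ0.le θ
    have hfar : ∀ θ : ℝ, ∀ u ∈ ball (lam z₀) (ρ / 2), ρ / 2 ≤ ‖circleMap (lam z₀) ρ θ - u‖ := by
      intro θ u hu
      have h1 : ‖circleMap (lam z₀) ρ θ - lam z₀‖ = ρ := by
        rw [circleMap_sub_center]; simp [circleMap, abs_of_pos hρ0]
      rw [mem_ball, dist_eq_norm] at hu
      have h2 : ‖circleMap (lam z₀) ρ θ - lam z₀‖ ≤ ‖circleMap (lam z₀) ρ θ - u‖ + ‖u - lam z₀‖ := by
        have := norm_add_le (circleMap (lam z₀) ρ θ - u) (u - lam z₀)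
        simpa using this
      rw [h1] at h2
      linarith
    have hfar' : ∀ θ : ℝ, ∀ u ∈ ball (lam z₀) (ρ / 2), circleMap (lam z₀) ρ θ - u ≠ 0 := by
      intro θ u hu h
      have := hfar θ u hu
      rw [h, norm_zero] at this
      linarith
    have hdmem : ∀ θ : ℝ, ∀ y ∈ Ω, (((y.1.1, circleMap (lam z₀) ρ θ), y.2) : (G × ℂ) × G') ∈
        D ×ˢ P := fun θ y hy => ⟨hD1 _ hy.1 _ (hcircle θ), hy.2.2.2⟩
    have hdiff : DifferentiableOn ℂ
        (fun y => ∫ θ, f θ y ∂(volume.restrict (Ioc 0 (2 * Real.pi)))) Ω := by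
      refine differentiableOn_integral (volume.restrict (Ioc 0 (2 * Real.pi))) univ
        MeasurableSet.univ (by simp) hΩo f ?_ ?_ ?_
      · -- continuity
        have hc : Continuous (fun x : ℝ × ((G × ℂ) × G') => circleMap (lam z₀) ρ x.1) :=
          (continuous_circleMap _ _).comp continuous_fst
        have hc' : Continuous (fun x : ℝ × ((G × ℂ) × G') => deriv (circleMap (lam z₀) ρ) x.1) := by
          have : deriv (circleMap (lam z₀) ρ) = fun θ => circleMap 0 ρ θ * Complex.I := by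
            ext θ; exact deriv_circleMap _ _ _
          rw [this]
          exact ((continuous_circleMap _ _).comp continuous_fst).mul continuous_const
        refine ContinuousOn.const_smul ?_ _
        refine ContinuousOn.smul hc'.continuousOn ?_
        refine ContinuousOn.smul ?_ ?_
        · refine ContinuousOn.mul ?_ ?_
          · refine ContinuousOn.inv₀ (ContinuousOn.sub hc.continuousOn (by fun_prop)) ?_
            rintro ⟨θ, y⟩ ⟨-, hy⟩
            exact hfar' θ _ hy.2.2.1
          · refine ContinuousOn.inv₀ (ContinuousOn.sub hc.continuousOn (by fun_prop)) ?_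
            rintro ⟨θ, y⟩ ⟨-, hy⟩
            exact hfar' θ _ hy.2.1
        · refine ContinuousOn.comp (t := D ×ˢ P) hd.1.continuousOn ?_ ?_
          · refine Continuous.continuousOn ?_
            exact ((continuous_fst.comp (continuous_fst.comp continuous_snd)).prodMk hc).prodMk
              (continuous_snd.comp continuous_snd)
          · rintro ⟨θ, y⟩ ⟨-, hy⟩
            exact hdmem θ y hy
      · -- holomorphy
        intro θ _
        refine DifferentiableOn.const_smul ?_ _
        refine DifferentiableOn.const_smul ?_ _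
        refine DifferentiableOn.smul ?_ ?_
        · refine DifferentiableOn.mul ?_ ?_
          · refine DifferentiableOn.inv (by fun_prop) ?_
            intro y hy
            exact hfar' θ _ hy.2.2.1
          · refine DifferentiableOn.inv (by fun_prop) ?_
            intro y hy
            exact hfar' θ _ hy.2.1
        · refine DifferentiableOn.comp (t := D ×ˢ P) hd.1 ?_ ?_
          · fun_prop
          · intro y hy
            exact hdmem θ y hy
      · -- bound
        intro q hq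
        refine ⟨‖(2 * Real.pi * Complex.I : ℂ)⁻¹‖ * (ρ * (((ρ / 2)⁻¹ * (ρ / 2)⁻¹) * M)), Ω,
          hΩo.mem_nhds hq, ?_⟩
        intro y hy θ _
        rw [hf]
        simp only
        rw [norm_smul, norm_smul, norm_smul, norm_mul, norm_inv (circleMap _ _ _ - y.1.2),
          norm_inv (circleMap _ _ _ - lam y.1.1)]
        have hM : ‖d ((y.1.1, circleMap (lam z₀) ρ θ), y.2)‖ ≤ M := hd.2 _ (hdmem θ y hy)
        have h1 : ‖deriv (circleMap (lam z₀) ρ) θ‖ = ρ := by
          rw [deriv_circleMap]; simp [circleMap, abs_of_pos hρ0]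
        rw [h1]
        have h2 := hfar θ _ hy.2.2.1
        have h3 := hfar θ _ hy.2.1
        have h0' : 0 < ρ / 2 := by positivity
        gcongr
    have h1 : DifferentiableOn ℂ (quot lam d) Ω := (hdiff.neg).congr heq
    exact h1.differentiableAt (hΩo.mem_nhds hmem)
  · -- off the graph
    have hV : {y : (G × ℂ) × G' | lam y.1.1 ≠ y.1.2} ∈ 𝓝 (((z₀, w₀), p₀) : (G × ℂ) × G') := by
      refine IsOpen.mem_nhds ?_ hw
      exact isOpen_ne_fun (by fun_prop) (by fun_prop)
    have heq : quot lam d =ᶠ[𝓝 (((z₀, w₀), p₀) : (G × ℂ) × G')]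
        fun y => (lam y.1.1 - y.1.2)⁻¹ • d y := by
      filter_upwards [hV] with y hy
      rw [quot, if_neg hy]
    rw [heq.differentiableAt_iff]
    refine DifferentiableAt.smul ?_ (hd.1.differentiableAt ((hD.prod hP).mem_nhds ⟨hx₀, hp₀⟩))
    refine DifferentiableAt.inv (by fun_prop) (sub_ne_zero.2 hw)

end A7

open A7 in
theorem division {G G' F : Type} [NormedAddCommGroup G] [NormedSpace ℂ G] [FiniteDimensional ℂ G]
    [NormedAddCommGroup G'] [NormedSpace ℂ G'] [FiniteDimensional ℂ G']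
    [NormedAddCommGroup F] [NormedSpace ℂ F] [FiniteDimensional ℂ F]
    (lam : G →L[ℂ] ℂ) (D : Set (G × ℂ)) (hD : IsOpen D) (K : Set (G × ℂ))
    (hK : IsCompact K) (hKD : K ⊆ D) (P : Set G') (hP : IsOpen P) (M : ℝ) :
    ∃ (D' : Set (G × ℂ)) (M' : ℝ), IsOpen D' ∧ K ⊆ D' ∧ D' ⊆ D ∧ 0 < M' ∧
      ∀ d : (G × ℂ) × G' → F, HB D P M d →
        (∀ z, (z, lam z) ∈ D → ∀ p ∈ P, d ((z, lam z), p) = 0) →
        ∃ q : (G × ℂ) × G' → F, HB D' P M' q ∧
          (∀ x ∈ D', ∀ p ∈ P, d (x, p) = (lam x.1 - x.2) • q (x, p)) ∧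
          ∀ p ∈ P, (∀ x ∈ D, d (x, p) = 0) → ∀ x ∈ D', q (x, p) = 0 := by
  obtain ⟨r, hr, hrD⟩ := hK.exists_cthickening_subset_open hD hKD
  -- D' = thickening (r/3)
  have hsub : thickening (r / 3) K ⊆ D := by
    refine subset_trans ?_ hrD
    exact (thickening_subset_cthickening _ _).trans (cthickening_mono (by linarith) _)
  have hball : ∀ z : G, ∀ w : ℂ, (z, w) ∈ thickening (r / 3) K → ∀ ω ∈ ball w (2 * r / 3),
      (z, ω) ∈ D := by
    intro z w hx ω hω
    obtain ⟨k, hk, hxk⟩ := mem_thickening_iff.1 hx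
    apply hrD
    apply thickening_subset_cthickening
    rw [mem_thickening_iff]
    refine ⟨k, hk, ?_⟩
    have h1 : dist (z, ω) (z, w) = dist ω w := by
      rw [Prod.dist_eq]; simp
    have h2 := dist_triangle (z, ω) (z, w) k
    rw [mem_ball] at hω
    linarith
  refine ⟨thickening (r / 3) K, (|M| + 1) / (r / 3), isOpen_thickening,
    self_subset_thickening (by positivity) _, hsub, by positivity, ?_⟩
  intro d hd h0
  refine ⟨quot lam d, ⟨?_, ?_⟩, ?_, ?_⟩
  · rintro ⟨x, p⟩ ⟨hx, hp⟩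
    exact (quot_differentiableAt lam D hD P hP d M hd h0 x p (hsub hx) hp).differentiableWithinAt
  · rintro ⟨⟨z, w⟩, p⟩ ⟨hx, hp⟩
    simp only at hx hp
    have hM : ‖d ((z, w), p)‖ ≤ M := hd.2 _ ⟨hsub hx, hp⟩
    have hM0 : 0 ≤ M := (norm_nonneg _).trans hM
    by_cases hlw : r / 3 ≤ ‖lam z - w‖
    · have hne : lam z ≠ w := by
        intro h
        rw [h, sub_self, norm_zero] at hlw
        linarith
      rw [quot, if_neg hne, norm_smul, norm_inv, div_eq_inv_mul, abs_of_nonneg hM0]
      simp only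
      gcongr
      linarith
    · rw [not_le] at hlw
      have hsub2 : ball (lam z) (r / 3) ⊆ ball w (2 * r / 3) := by
        apply ball_subset_ball'
        rw [dist_eq_norm]
        linarith
      have hzD : (z, lam z) ∈ D := hball z w hx _ (hsub2 (mem_ball_self (by positivity)))
      have hz0 := h0 z hzD p hp
      rw [quot_eq_dslope lam d z w p hz0, norm_neg]
      apply Complex.norm_dslope_le_div_of_mapsTo_ball
      · intro ω hω
        exact (slice_differentiableAt D hD P hP d hd.1 z ω p (hball z w hx _ (hsub2 hω))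
          hp).differentiableWithinAt
      · intro ω hω
        simp only [hz0]
        rw [mem_closedBall_zero_iff]
        have := hd.2 ((z, ω), p) ⟨hball z w hx _ (hsub2 hω), hp⟩
        have h3 := le_abs_self M
        linarith
      · rw [mem_ball, dist_comm, dist_eq_norm]
        exact hlw
  · rintro ⟨z, w⟩ hx p hp
    by_cases hlw : lam z = w
    · subst hlw
      simp only [sub_self, zero_smul]
      exact h0 z (hsub hx) p hp
    · rw [quot, if_neg hlw, smul_smul, mul_inv_cancel₀ (sub_ne_zero.2 hlw), one_smul]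
  · intro p hp hz
    rintro ⟨z, w⟩ hx
    by_cases hlw : lam z = w
    · rw [quot, if_pos hlw]
      simp only [neg_eq_zero]
      have : (fun ω => d ((z, ω), p)) =ᶠ[𝓝 w] fun _ => 0 := by
        have : ∀ᶠ ω in 𝓝 w, (z, ω) ∈ D := by
          have hc : Continuous (fun ω : ℂ => ((z, ω) : G × ℂ)) := by fun_prop
          exact hc.continuousAt.eventually (hD.mem_nhds (hsub hx))
        filter_upwards [this] with ω hω
        exact hz _ hω
      rw [this.deriv_eq]
      simp
    · rw [quot, if_neg hlw, hz _ (hsub hx), smul_zero]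

end Pool.Agent.Helper58.OKA
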