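import Pool.Agent.Helper74.OKA.Defs

/-!
# OKA-A8: local extension from the graph (MP_7bedea_an)
-/

set_option autoImplicit false

open Set Metric Topology MeasureTheory

open Pool.Agent.Helper74.OKA

namespace Pool.Agent.Helper58.OKA

theorem ext_local {G G' F : Type} [NormedAddCommGroup G] [NormedSpace ℂ G] [FiniteDimensional ℂ G]
    [NormedAddCommGroup G'] [NormedSpace ℂ G'] [FiniteDimensional ℂ G']
    [NormedAddCommGroup F] [NormedSpace ℂ F] [FiniteDimensional ℂ F]
    (lam : G →L[ℂ] ℂ) (W : Set G) (hW : IsOpen W) (K : Set (G × ℂ))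
    (hK : IsCompact K) (h : ∀ z, (z, lam z) ∈ K → z ∈ W) (P : Set G') :
    ∃ δ > 0, ∀ K' ⊆ K, (∀ x ∈ K', ∀ y ∈ K', dist x y ≤ δ) → ExtW F P lam W K' := by
  have hK₁ : IsCompact {z : G | (z, lam z) ∈ K} := by
    have h1 : {z : G | (z, lam z) ∈ K} = Prod.fst '' (K ∩ {x : G × ℂ | lam x.1 = x.2}) := by
      ext z
      constructor
      · intro hz
        exact ⟨(z, lam z), ⟨hz, rfl⟩, rfl⟩
      · rintro ⟨⟨z', w⟩, ⟨hz, hw⟩, rfl⟩
        simp only [mem_ofPred_eq] at hw
        simp only [mem_ofPred_eq, hw]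
        exact hz
    rw [h1]
    refine (hK.inter_right ?_).image continuous_fst
    exact isClosed_eq (by fun_prop) (by fun_prop)
  obtain ⟨δ, hδ, hδW⟩ := hK₁.exists_thickening_subset_open hW (fun z hz => h z hz)
  refine ⟨δ / 2, by positivity, ?_⟩
  intro K' hK' hdiam
  by_cases hg : ∃ z₀, (z₀, lam z₀) ∈ K'
  · obtain ⟨z₀, hz₀⟩ := hg
    have hsub : ball z₀ δ ⊆ W := by
      intro z hz
      apply hδW
      rw [mem_thickening_iff]
      exact ⟨z₀, hK' hz₀, hz⟩
    refine ⟨ball z₀ δ ×ˢ univ, 1, isOpen_ball.prod isOpen_univ, ?_, zero_le_one, ?_, ?_⟩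
    · intro x hx
      refine ⟨?_, mem_univ _⟩
      have h1 := hdiam x hx _ hz₀
      rw [Prod.dist_eq, max_le_iff] at h1
      rw [mem_ball]
      have h2 := h1.1
      simp only at h2
      linarith
    · rintro z ⟨hz, -⟩
      exact hsub hz
    · intro c hc
      refine ⟨fun y => c (y.1.1, y.2), ⟨?_, ?_⟩, ?_, ?_⟩
      · refine DifferentiableOn.comp (t := W ×ˢ P) hc.1 (by fun_prop) ?_
        rintro y ⟨⟨hy, -⟩, hp⟩
        exact ⟨hsub hy, hp⟩
      · rintro y ⟨⟨hy, -⟩, hp⟩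
        exact hc.2 _ ⟨hsub hy, hp⟩
      · intro z _ p _
        rfl
      · rintro p hp hz x ⟨hx, -⟩
        exact hz _ (hsub hx)
  · have hg' : ∀ x ∈ K', lam x.1 ≠ x.2 := by
      rintro ⟨z, w⟩ hx hw
      simp only at hw
      exact hg ⟨z, by rw [hw]; exact hx⟩
    refine ⟨{x : G × ℂ | lam x.1 ≠ x.2}, 0, isOpen_ne_fun (by fun_prop) (by fun_prop),
      fun x hx => hg' x hx, le_refl _, ?_, ?_⟩
    · intro z hz
      exact absurd rfl hz
    · intro c hc
      refine ⟨fun _ => 0, ⟨differentiableOn_const _, ?_⟩, ?_, ?_⟩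
      · intro x _
        simp
      · intro z hz
        exact absurd rfl hz
      · intro p _ _ x _
        rfl

end Pool.Agent.Helper58.OKA
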