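import Pool.Agent.Helper74.OKA.St.A7

/-!
# OKA-A9: merging two extensions from the graph (MP_7bedea_an)
-/

set_option autoImplicit false

open Set Metric Topology MeasureTheory

open Pool.Agent.Helper74.OKA

namespace Pool.Agent.Helper58.OKA

theorem ext_merge {G G' F : Type} [NormedAddCommGroup G] [NormedSpace ℂ G] [FiniteDimensional ℂ G]
    [NormedAddCommGroup G'] [NormedSpace ℂ G'] [FiniteDimensional ℂ G']
    [NormedAddCommGroup F] [NormedSpace ℂ F] [FiniteDimensional ℂ F]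
    (lam : G →L[ℂ] ℂ) (W : Set G) (hW : IsOpen W) (P : Set G') (hP : IsOpen P)
    (K : Set (G × ℂ)) (hK : IsCompact K) (m : G × ℂ → ℝ) (hm : Continuous m) (t : ℝ)
    (h₁ : ExtW F P lam W (K ∩ {x | m x ≤ t})) (h₂ : ExtW F P lam W (K ∩ {x | t ≤ m x}))
    (hCP : CP F P K m t) : ExtW F P lam W K := by
  classical
  obtain ⟨V₁, M₁, hV₁o, hV₁K, hM₁, hV₁W, hV₁⟩ := h₁
  obtain ⟨V₂, M₂, hV₂o, hV₂K, hM₂, hV₂W, hV₂⟩ := h₂
  have hK₀ : IsCompact (K ∩ {x | m x = t}) := hK.inter_right (isClosed_eq hm continuous_const)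
  have hK₀D : K ∩ {x | m x = t} ⊆ V₁ ∩ V₂ := by
    rintro x ⟨hx, hx'⟩
    exact ⟨hV₁K ⟨hx, le_of_eq hx'⟩, hV₂K ⟨hx, ge_of_eq hx'⟩⟩
  obtain ⟨D', M', hD'o, hD'K, hD'D, hM', hdiv⟩ := division (F := F) lam (V₁ ∩ V₂)
    (hV₁o.inter hV₂o) _ hK₀ hK₀D P hP (M₂ + M₁)
  obtain ⟨U₁, U₂, M₀, hU₁o, hU₂o, hU₁K, hU₂K, hUU, hM₀, hCP'⟩ := hCP D' hD'o hD'K
  obtain ⟨R, hR⟩ := hK.isBounded.subset_ball (0 : G × ℂ)
  -- bound of lam z - w on the ball
  set L : ℝ := ‖lam‖ * |R| + |R| with hL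
  have hL0 : 0 ≤ L := by positivity
  have hLb : ∀ x ∈ ball (0 : G × ℂ) R, ‖lam x.1 - x.2‖ ≤ L := by
    intro x hx
    rw [mem_ball_zero_iff, Prod.norm_def, max_lt_iff] at hx
    have h1 : ‖x.1‖ ≤ |R| := hx.1.le.trans (le_abs_self R)
    have h2 : ‖x.2‖ ≤ |R| := hx.2.le.trans (le_abs_self R)
    calc ‖lam x.1 - x.2‖ ≤ ‖lam x.1‖ + ‖x.2‖ := norm_sub_le _ _
      _ ≤ ‖lam‖ * ‖x.1‖ + ‖x.2‖ := by gcongr; exact lam.le_opNorm _
      _ ≤ L := by rw [hL]; gcongr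
  refine ⟨((V₁ ∩ U₁) ∪ (V₂ ∩ U₂)) ∩ ball 0 R, max M₁ M₂ + L * (M' * M₀),
    ((hV₁o.inter hU₁o).union (hV₂o.inter hU₂o)).inter isOpen_ball, ?_, ?_, ?_, ?_⟩
  · intro x hx
    refine ⟨?_, hR hx⟩
    rcases le_total (m x) t with hxt | hxt
    · exact Or.inl ⟨hV₁K ⟨hx, hxt⟩, hU₁K ⟨hx, hxt⟩⟩
    · exact Or.inr ⟨hV₂K ⟨hx, hxt⟩, hU₂K ⟨hx, hxt⟩⟩
  · have : 0 ≤ max M₁ M₂ := hM₁.trans (le_max_left _ _)
    positivity
  · rintro z ⟨hz | hz, -⟩
    · exact hV₁W z hz.1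
    · exact hV₂W z hz.1
  · intro c hc
    obtain ⟨C₁, hC₁, hC₁g, hC₁z⟩ := hV₁ c hc
    obtain ⟨C₂, hC₂, hC₂g, hC₂z⟩ := hV₂ c hc
    have hd : HB (V₁ ∩ V₂) P (M₂ + M₁) (fun y => C₂ y - C₁ y) := by
      constructor
      · exact (hC₂.1.mono (prod_mono inter_subset_right (le_refl _))).sub
          (hC₁.1.mono (prod_mono inter_subset_left (le_refl _)))
      · rintro y ⟨hy, hp⟩
        exact (norm_sub_le _ _).trans (add_le_add (hC₂.2 _ ⟨hy.2, hp⟩) (hC₁.2 _ ⟨hy.1, hp⟩))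
    obtain ⟨q, hq, hqd, hqz⟩ := hdiv (fun y => C₂ y - C₁ y) hd (by
      rintro z hz p hp
      simp only [hC₂g z hz.2 p hp, hC₁g z hz.1 p hp, sub_self])
    have hq1 : HB D' P 1 (fun y => (M'⁻¹ : ℂ) • q y) := by
      constructor
      · exact hq.1.const_smul _
      · intro y hy
        rw [norm_smul, norm_inv, Complex.norm_real, Real.norm_of_nonneg hM'.le]
        rw [inv_mul_le_iff₀ hM', mul_one]
        exact hq.2 y hy
    obtain ⟨a, b, ha, hb, hab, habz⟩ := hCP' _ hq1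
    set T₁ : (G × ℂ) × G' → F := fun y => C₁ y - ((lam y.1.1 - y.1.2) * M') • a y with hT₁
    set T₂ : (G × ℂ) × G' → F := fun y => C₂ y - ((lam y.1.1 - y.1.2) * M') • b y with hT₂
    have hTeq : ∀ x ∈ (V₁ ∩ U₁) ∩ (V₂ ∩ U₂), ∀ p ∈ P, T₁ (x, p) = T₂ (x, p) := by
      rintro x ⟨⟨hx1, hx2⟩, hx3, hx4⟩ p hp
      have h1 := hqd x (hUU ⟨hx2, hx4⟩) p hp
      have h2 := hab x ⟨hx2, hx4⟩ p hp
      have h3 : q (x, p) = (M' : ℂ) • (b (x, p) - a (x, p)) := by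
        rw [h2, smul_smul, mul_inv_cancel₀ (by exact_mod_cast hM'.ne'), one_smul]
      rw [h3, smul_smul, smul_sub] at h1
      simp only [hT₁, hT₂]
      have h4 : C₂ (x, p) = C₁ (x, p) + (((lam x.1 - x.2) * M') • b (x, p) -
          ((lam x.1 - x.2) * M') • a (x, p)) := by
        rw [← h1]; abel
      rw [h4]
      abel
    set C : (G × ℂ) × G' → F := fun y => if y.1 ∈ V₁ ∩ U₁ then T₁ y else T₂ y with hC
    have hCT₁ : ∀ y ∈ (V₁ ∩ U₁) ×ˢ P, C y = T₁ y := by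
      rintro y ⟨hy, hp⟩
      simp only [hC, if_pos hy]
    have hCT₂ : ∀ y ∈ (V₂ ∩ U₂) ×ˢ P, C y = T₂ y := by
      rintro y ⟨hy, hp⟩
      by_cases hy1 : y.1 ∈ V₁ ∩ U₁
      · simp only [hC, if_pos hy1]
        exact hTeq y.1 ⟨hy1, hy⟩ y.2 hp
      · simp only [hC, if_neg hy1]
    have hT₁d : DifferentiableOn ℂ T₁ ((V₁ ∩ U₁) ×ˢ P) := by
      refine (hC₁.1.mono (prod_mono inter_subset_left (le_refl _))).sub ?_
      refine DifferentiableOn.smul (by fun_prop) ?_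
      exact ha.1.mono (prod_mono inter_subset_right (le_refl _))
    have hT₂d : DifferentiableOn ℂ T₂ ((V₂ ∩ U₂) ×ˢ P) := by
      refine (hC₂.1.mono (prod_mono inter_subset_left (le_refl _))).sub ?_
      refine DifferentiableOn.smul (by fun_prop) ?_
      exact hb.1.mono (prod_mono inter_subset_right (le_refl _))
    refine ⟨C, ⟨?_, ?_⟩, ?_, ?_⟩
    · rintro y ⟨⟨hy | hy, -⟩, hp⟩
      · have h1 : ((V₁ ∩ U₁) ×ˢ P) ∈ 𝓝 y :=
          ((hV₁o.inter hU₁o).prod hP).mem_nhds ⟨hy, hp⟩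
        exact ((hT₁d.congr hCT₁).differentiableAt h1).differentiableWithinAt
      · have h1 : ((V₂ ∩ U₂) ×ˢ P) ∈ 𝓝 y :=
          ((hV₂o.inter hU₂o).prod hP).mem_nhds ⟨hy, hp⟩
        exact ((hT₂d.congr hCT₂).differentiableAt h1).differentiableWithinAt
    · rintro y ⟨⟨hy | hy, hyR⟩, hp⟩
      · rw [hCT₁ y ⟨hy, hp⟩]
        refine (norm_sub_le _ _).trans (add_le_add ?_ ?_)
        · exact (hC₁.2 y ⟨hy.1, hp⟩).trans (le_max_left _ _)
        · rw [norm_smul, norm_mul, Complex.norm_real, Real.norm_of_nonneg hM'.le, mul_assoc]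
          have h1 := hLb y.1 hyR
          have h2 := ha.2 y ⟨hy.2, hp⟩
          gcongr
      · rw [hCT₂ y ⟨hy, hp⟩]
        refine (norm_sub_le _ _).trans (add_le_add ?_ ?_)
        · exact (hC₂.2 y ⟨hy.1, hp⟩).trans (le_max_right _ _)
        · rw [norm_smul, norm_mul, Complex.norm_real, Real.norm_of_nonneg hM'.le, mul_assoc]
          have h1 := hLb y.1 hyR
          have h2 := hb.2 y ⟨hy.2, hp⟩
          gcongr
    · rintro z ⟨hz | hz, -⟩ p hp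
      · rw [hCT₁ _ ⟨hz, hp⟩]
        simp only [hT₁, sub_self, zero_mul, zero_smul, sub_zero]
        exact hC₁g z hz.1 p hp
      · rw [hCT₂ _ ⟨hz, hp⟩]
        simp only [hT₂, sub_self, zero_mul, zero_smul, sub_zero]
        exact hC₂g z hz.1 p hp
    · intro p hp hz
      have hC1 := hC₁z p hp hz
      have hC2 := hC₂z p hp hz
      have hq0 : ∀ x ∈ D', q (x, p) = 0 := by
        apply hqz p hp
        rintro x ⟨hx1, hx2⟩
        simp only [hC1 x hx1, hC2 x hx2, sub_self]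
      obtain ⟨ha0, hb0⟩ := habz p hp (fun z hz' => by simp only [hq0 z hz', smul_zero])
      rintro x ⟨hx | hx, -⟩
      · rw [hCT₁ _ ⟨hx, hp⟩]
        simp only [hT₁, hC1 x hx.1, ha0 x hx.2, smul_zero, sub_zero]
      · rw [hCT₂ _ ⟨hx, hp⟩]
        simp only [hT₂, hC2 x hx.1, hb0 x hx.2, smul_zero, sub_zero]

end Pool.Agent.Helper58.OKA
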